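import Pool.Agent.W719.AR.Rt

/-!
# AR-RTT: from the R-matrix to the iterated integral
-/

set_option autoImplicit false

namespace Pool.Agent.W803.AR

open Finset Filter Topology Matrix
open Pool.Agent.H550R3.Jones Pool.Agent.W711.HT Pool.Agent.W719.AR
open scoped Real

theorem upp_mul (h : ℝ) (K : ℂ) (f : ℂ → ℂ) : upp h (fun ψ => K * f ψ) = K * upp h f := by
  unfold upp
  rw [intervalIntegral.integral_const_mul, intervalIntegral.integral_const_mul,
    intervalIntegral.integral_const_mul]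
  ring

theorem gen_off {v : ℂ} (hv : v ≠ 0) (hv1 : ‖v‖ ≠ 1) : ∃ u : ℂ, u ^ 2 = v ∧ Gen u := by
  obtain ⟨u, hu⟩ : ∃ u : ℂ, u ^ 2 = v := ⟨v ^ (1 / 2 : ℂ), by
    rw [← Complex.cpow_nat_mul]
    norm_num⟩
  refine ⟨u, hu, fun h0 => hv (by rw [← hu, h0]; norm_num), fun n hn hbr => ?_⟩
  rw [hu] at hbr
  unfold br at hbr
  have h1 : v ^ (n : ℤ) = v ^ (-(n : ℤ)) := sub_eq_zero.1 hbr
  have h2 : v ^ (2 * n) = 1 := by
    have : v ^ (2 * n) = v ^ (n : ℤ) * v ^ (n : ℤ) := by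
      rw [← zpow_add₀ hv, ← two_mul]
      exact_mod_cast (zpow_natCast v (2 * n)).symm
    rw [this]
    nth_rewrite 2 [h1]
    rw [← zpow_add₀ hv, add_neg_cancel, zpow_zero]
  have h3 : ‖v‖ ^ (2 * n) = 1 := by rw [← norm_pow, h2, norm_one]
  exact hv1 ((pow_eq_one_iff_of_nonneg (norm_nonneg v) (by omega)).1 h3)

theorem norm_kp (N : ℕ) : ‖kp N‖ = 1 := by
  unfold kp
  have : -(Complex.I * π * N / 4) + 3 * π * Complex.I / (4 * N) =
      ((-(π * N / 4) + 3 * π / (4 * N) : ℝ) : ℂ) * Complex.I := by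
    push_cast
    ring
  rw [this, norm_mul, Complex.norm_exp_ofReal_mul_I, norm_neg, Complex.norm_I, one_mul]

theorem norm_c (N : ℕ) : ‖(Complex.I * N ^ 2 / (2 * π) : ℂ)‖ = (N : ℝ) ^ 2 / (2 * π) := by
  have h2 : ‖(2 * π : ℂ)‖ = 2 * π := by
    rw [norm_mul, Complex.norm_real, Real.norm_eq_abs, abs_of_pos Real.pi_pos]
    norm_num
  rw [norm_div, norm_mul, Complex.norm_I, one_mul, norm_pow, Complex.norm_natCast, h2]

theorem lm_tree (hLMR : S_LMR) (hLMV : S_LMV) (hLMM : S_LMM) (N : ℕ) (hN : 2 ≤ N) (t : Tr) :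
    ∃ K : ℂ, ‖K‖ * ((N : ℝ) ^ 2 / (2 * π)) = ((N : ℝ) ^ 2 / (2 * π)) ^ t.nv ∧
      Lm N (fun v c => ev N v t c) (fun ψ => K * (Ea t.wt N ψ * XX t N ψ)) := by
  induction t with
  | vx a =>
    refine ⟨kp N ^ a, ?_, ?_⟩
    · rw [norm_zpow, norm_kp, _root_.one_zpow, one_mul]
      change _ = _ ^ 1
      rw [pow_one]
    · have h := hLMV N a hN
      have h1 : (fun ψ : ℂ => kp N ^ a * (Ea (Tr.vx a).wt N ψ * XX (Tr.vx a) N ψ)) =
          fun ψ => kp N ^ a * Ea a N ψ := by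
        funext ψ
        change kp N ^ a * (Ea a N ψ * 1) = _
        rw [mul_one]
      rw [h1]
      exact h
  | br t c iht ihc =>
    obtain ⟨K1, hK1, h1⟩ := iht
    obtain ⟨K2, hK2, h2⟩ := ihc
    have h3 := hLMR N (fun v c' => ev N v c c') _ hN h2
    have h4 := hLMM N _ _ _ _ hN h1 h3
    refine ⟨K1 * ((-1) ^ (N - 1) * (Complex.I * N ^ 2 / (2 * π)) * K2), ?_, ?_⟩
    · change _ = _ ^ (t.nv + c.nv)
      rw [pow_add, ← hK1, ← hK2, norm_mul, norm_mul, norm_mul, norm_c, norm_pow, norm_neg, norm_one,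
        one_pow]
      ring
    · have h5 : (fun ψ : ℂ => K1 * ((-1) ^ (N - 1) * (Complex.I * N ^ 2 / (2 * π)) * K2) *
          (Ea (Tr.br t c).wt N ψ * XX (Tr.br t c) N ψ)) =
          fun ψ => K1 * (Ea t.wt N ψ * XX t N ψ) * ((-1) ^ (N - 1) *
            (Complex.I * N ^ 2 / (2 * π)) * upp (1 / N) fun ψ_1 => K2 * (Ea c.wt N ψ_1 *
              XX c N ψ_1) * ker N ψ_1 ψ * kr N ψ_1) := by
        funext ψ
        have e1 : upp (1 / N) (fun ψ_1 => K2 * (Ea c.wt N ψ_1 *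
              XX c N ψ_1) * ker N ψ_1 ψ * kr N ψ_1) = K2 * stp c.wt (XX c) N ψ := by
          unfold stp
          rw [← upp_mul]
          congr 1
          funext ψ_1
          ring
        rw [e1]
        change _ * (Ea t.wt N ψ * (XX t N ψ * stp c.wt (XX c) N ψ)) = _
        ring
      rw [h5]
      exact h4

theorem rtt : S_EVT → S_LMT → S_LMR → S_LMV → S_LMM → S_CNT → S_RTT := by
  intro hEVT hLMT hLMR hLMV hLMM hCNT t N hN
  refine ⟨hCNT t N, ?_⟩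
  have hN0 : 0 < N := by omega
  obtain ⟨K, hK, hLm⟩ := lm_tree hLMR hLMV hLMM N hN t
  have hlim := hLMT N _ _ hN hLm
  have e1 : upp (1 / N) (fun ψ => K * (Ea t.wt N ψ * XX t N ψ) * kr N ψ) = K * JT t N := by
    unfold JT
    rw [← upp_mul]
    congr 1
    funext ψ
    ring
  rw [e1] at hlim
  have hvN0 : vN N ≠ 0 := Complex.exp_ne_zero _
  have hnorm : ‖vN N‖ = 1 := by
    unfold vN
    have : (π : ℂ) * Complex.I / N = ((π / N : ℝ) : ℂ) * Complex.I := by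
      push_cast
      ring
    rw [this, Complex.norm_exp_ofReal_mul_I]
  have hne : (𝓝[{v : ℂ | ‖v‖ ≠ 1}] (vN N)).NeBot := by
    rw [← mem_closure_iff_nhdsWithin_neBot, Metric.mem_closure_iff]
    intro ε hε
    refine ⟨((1 + ε / 2 : ℝ) : ℂ) * vN N, ?_, ?_⟩
    · simp only [Set.mem_ofPred_eq, norm_mul, hnorm, mul_one, Complex.norm_real, Real.norm_eq_abs]
      rw [abs_of_pos (by linarith)]
      linarith
    · rw [dist_eq_norm]
      have : vN N - ((1 + ε / 2 : ℝ) : ℂ) * vN N = ((-(ε / 2) : ℝ) : ℂ) * vN N := by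
        push_cast
        ring
      rw [this, norm_mul, hnorm, mul_one, Complex.norm_real, Real.norm_eq_abs, abs_neg,
        abs_of_pos (by linarith)]
      linarith
  have hle : 𝓝[{v : ℂ | ‖v‖ ≠ 1}] (vN N) ≤ 𝓝[≠] (vN N) := by
    apply nhdsWithin_mono
    intro v hv hc
    rw [Set.mem_singleton_iff] at hc
    apply hv
    rw [hc, hnorm]
  have h3 : Tendsto (jt t N) (𝓝[{v : ℂ | ‖v‖ ≠ 1}] (vN N)) (𝓝 (jt t N (vN N))) :=
    (hCNT t N).tendsto.mono_left nhdsWithin_le_nhds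
  have hv0 : ∀ᶠ v in 𝓝[{v : ℂ | ‖v‖ ≠ 1}] (vN N), v ≠ 0 :=
    nhdsWithin_le_nhds (isOpen_ne.mem_nhds hvN0)
  have h5 : Tendsto (jt t N) (𝓝[{v : ℂ | ‖v‖ ≠ 1}] (vN N))
      (𝓝 (Complex.I * N ^ 2 / (2 * π) * (K * JT t N))) := by
    refine (hlim.mono_left hle).congr' ?_
    filter_upwards [self_mem_nhdsWithin, hv0] with v hv hv'
    obtain ⟨u, hu, hg⟩ := gen_off hv' hv
    have e2 := hEVT u hg N hN0 t
    rw [hu] at e2
    have e3 : br v (N : ℤ) ≠ 0 := by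
      rw [← hu]
      exact hg.2 N hN0
    rw [← e2]
    field_simp
  have h6 := tendsto_nhds_unique h3 h5
  rw [h6, norm_mul, norm_mul, norm_c, ← hK]
  ring

end Pool.Agent.W803.AR
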